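import Mathlib

/-!
# The expected number of occurrences of a consecutive pattern need not be unimodal in the number of
inversions

For the consecutive pattern `23451` and `n = 7` the expected numbers of occurrences in a uniformly
random permutation with `5`, `8` and `9` inversions are `6/169`, `15/455` and `18/531`.
-/

set_option autoImplicit false

namespace Pool.Agent.Results.MP_094caa_co.NotUnimodal

open Finset Equiv

/-- The number of inversions of `σ`. -/
def inv {n : ℕ} (σ : Perm (Fin n)) : ℕ :=
  (univ.filter fun p : Fin n × Fin n => p.1 < p.2 ∧ σ p.2 < σ p.1).card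

/-- The number of occurrences of the consecutive pattern `π` in `σ`: the number of `i` such that the
block of the `k` entries of `σ` from position `i` on is order-isomorphic to `π`. -/
def occ {k n : ℕ} (π : Perm (Fin k)) (σ : Perm (Fin n)) : ℕ :=
  ((range (n + 1)).filter fun i => ∃ h : i + k ≤ n, ∀ a b : Fin k,
    (σ ⟨i + a.val, by omega⟩ < σ ⟨i + b.val, by omega⟩ ↔ π a < π b)).card

/-- The expected number of occurrences of `π` in a uniformly random permutation of `Fin n` with
exactly `m` inversions. -/
def expected (n m : ℕ) {k : ℕ} (π : Perm (Fin k)) : ℚ :=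
  (∑ σ ∈ univ.filter (fun σ : Perm (Fin n) => inv σ = m), (occ π σ : ℚ)) /
    ((univ.filter (fun σ : Perm (Fin n) => inv σ = m)).card : ℚ)

/-! ### Enumeration of permutations by words -/

/-- the word of a permutation -/
def word {n : ℕ} (σ : Perm (Fin n)) : List ℕ := List.ofFn fun i => (σ i).val

def step (p : ℕ) (l : List ℕ) : List ℕ := p :: l.map fun x => if x + 1 = p then 0 else x + 1

def words : ℕ → List (List ℕ)
  | 0 => [[]]
  | n + 1 => (List.range (n + 1)).flatMap fun p => (words n).map (step p)

lemma word_succ {n : ℕ} (p : Fin (n + 1)) (e : Perm (Fin n)) :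
    word (Perm.decomposeFin.symm (p, e)) = step p.val (word e) := by
  unfold word step
  rw [List.ofFn_succ, List.map_ofFn]
  congr 1
  · simp
  · congr 1
    funext i
    rw [Perm.decomposeFin_symm_apply_succ]
    simp only [Function.comp_apply]
    by_cases h : (e i).succ = p
    · rw [h, swap_apply_right]
      have h2 : (e i).val + 1 = p.val := by
        rw [← h]
        simp
      simp [h2]
    · rw [swap_apply_of_ne_of_ne (Fin.succ_ne_zero _) h]
      have h2 : (e i).val + 1 ≠ p.val := by
        intro h3
        apply h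
        apply Fin.ext
        simpa using h3
      rw [if_neg h2]
      simp

lemma sum_map_flatMap {α β : Type*} (l : List α) (f : α → List β) (h : β → ℕ) :
    ((l.flatMap f).map h).sum = (l.map fun a => ((f a).map h).sum).sum := by
  induction l with
  | nil => simp
  | cons a l ih => simp [List.flatMap_cons, ih]

lemma sum_words (n : ℕ) : ∀ h : List ℕ → ℕ,
    ∑ σ : Perm (Fin n), h (word σ) = ((words n).map h).sum := by
  induction n with
  | zero =>
    intro h
    simp [words, word]
  | succ n ih =>
    intro h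
    rw [← Equiv.sum_comp (Perm.decomposeFin (n := n)).symm, Fintype.sum_prod_type]
    have h1 : ∀ p : Fin (n + 1), ∑ e : Perm (Fin n), h (word (Perm.decomposeFin.symm (p, e))) =
        (fun q : ℕ => (((words n).map (step q)).map h).sum) p.val := by
      intro p
      have := ih (fun l => h (step p.val l))
      simp only [word_succ]
      rw [this, List.map_map]
      rfl
    rw [Finset.sum_congr rfl fun p _ => h1 p]
    rw [Fin.sum_univ_eq_sum_range (fun q : ℕ => (((words n).map (step q)).map h).sum) (n + 1)]
    rw [words, sum_map_flatMap]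
    rfl

/-! ### inversions of words -/

def cntLt (x : ℕ) : List ℕ → ℕ
  | [] => 0
  | y :: l => if y < x then cntLt x l + 1 else cntLt x l

def invL : List ℕ → ℕ
  | [] => 0
  | x :: l => cntLt x l + invL l

lemma cntLt_ofFn (x : ℕ) : ∀ (n : ℕ) (f : Fin n → ℕ),
    cntLt x (List.ofFn f) = ∑ i, if f i < x then 1 else 0 := by
  intro n
  induction n with
  | zero => intro f; simp [cntLt]
  | succ n ih =>
    intro f
    rw [List.ofFn_succ, cntLt, Fin.sum_univ_succ, ih]
    split_ifs <;> omega

lemma invL_ofFn : ∀ (n : ℕ) (f : Fin n → ℕ),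
    invL (List.ofFn f) = ∑ i : Fin n, ∑ j : Fin n, if i < j ∧ f j < f i then 1 else 0 := by
  intro n
  induction n with
  | zero => intro f; simp [invL]
  | succ n ih =>
    intro f
    rw [List.ofFn_succ, invL, Fin.sum_univ_succ, ih, cntLt_ofFn]
    congr 1
    · rw [Fin.sum_univ_succ]
      simp
    · refine Finset.sum_congr rfl fun i _ => ?_
      rw [Fin.sum_univ_succ]
      simp

lemma inv_eq {n : ℕ} (σ : Perm (Fin n)) : inv σ = invL (word σ) := by
  unfold inv word
  rw [invL_ofFn, card_filter, Fintype.sum_prod_type]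
  rfl

/-! ### occurrences of 23451 -/

def chk (a b c d e : ℕ) : ℕ := if a < b ∧ b < c ∧ c < d ∧ e < a then 1 else 0

def occL : List ℕ → ℕ
  | [a, b, c, d, e, f, g] => chk a b c d e + chk b c d e f + chk c d e f g
  | _ => 0

lemma chain_iff (f : Fin 5 → ℕ) : (∀ a b : Fin 5, f a < f b ↔ finRotate 5 a < finRotate 5 b) ↔
    (f 0 < f 1 ∧ f 1 < f 2 ∧ f 2 < f 3 ∧ f 4 < f 0) := by
  constructor
  · intro h
    exact ⟨(h 0 1).2 (by decide), (h 1 2).2 (by decide), (h 2 3).2 (by decide),
      (h 4 0).2 (by decide)⟩
  · rintro ⟨h1, h2, h3, h4⟩ a b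
    have key : ∀ a b : Fin 5, finRotate 5 a < finRotate 5 b ↔ ((a.val + 1) % 5 < (b.val + 1) % 5) := by
      decide
    rw [key]
    fin_cases a <;> fin_cases b <;> simp <;> omega

lemma occ_eq (σ : Perm (Fin 7)) : occ (finRotate 5) σ = occL (word σ) := by
  have hw : word σ = [(σ 0).val, (σ 1).val, (σ 2).val, (σ 3).val, (σ 4).val, (σ 5).val,
      (σ 6).val] := by
    simp [word, List.ofFn_succ]
  have h0 : (∃ h : 0 + 5 ≤ 7, ∀ a b : Fin 5,
      (σ ⟨0 + a.val, by omega⟩ < σ ⟨0 + b.val, by omega⟩ ↔ finRotate 5 a < finRotate 5 b)) ↔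
      ((σ 0).val < (σ 1).val ∧ (σ 1).val < (σ 2).val ∧ (σ 2).val < (σ 3).val ∧
        (σ 4).val < (σ 0).val) := by
    rw [exists_prop_of_true (by norm_num)]
    exact chain_iff (fun a => (σ ⟨0 + a.val, by omega⟩).val)
  have h1 : (∃ h : 1 + 5 ≤ 7, ∀ a b : Fin 5,
      (σ ⟨1 + a.val, by omega⟩ < σ ⟨1 + b.val, by omega⟩ ↔ finRotate 5 a < finRotate 5 b)) ↔
      ((σ 1).val < (σ 2).val ∧ (σ 2).val < (σ 3).val ∧ (σ 3).val < (σ 4).val ∧
        (σ 5).val < (σ 1).val) := by
    rw [exists_prop_of_true (by norm_num)]
    exact chain_iff (fun a => (σ ⟨1 + a.val, by omega⟩).val)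
  have h2 : (∃ h : 2 + 5 ≤ 7, ∀ a b : Fin 5,
      (σ ⟨2 + a.val, by omega⟩ < σ ⟨2 + b.val, by omega⟩ ↔ finRotate 5 a < finRotate 5 b)) ↔
      ((σ 2).val < (σ 3).val ∧ (σ 3).val < (σ 4).val ∧ (σ 4).val < (σ 5).val ∧
        (σ 6).val < (σ 2).val) := by
    rw [exists_prop_of_true (by norm_num)]
    exact chain_iff (fun a => (σ ⟨2 + a.val, by omega⟩).val)
  rw [hw]
  unfold occ
  rw [card_filter]
  simp only [Finset.sum_range_succ, Finset.sum_range_zero]
  have h3 : ∀ i, 3 ≤ i → ¬ ∃ h : i + 5 ≤ 7, ∀ a b : Fin 5,
      (σ ⟨i + a.val, by omega⟩ < σ ⟨i + b.val, by omega⟩ ↔ finRotate 5 a < finRotate 5 b) := by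
    rintro i hi ⟨h, -⟩
    omega
  simp only [h0, h1, h2, h3 3 (by norm_num), h3 4 (by norm_num), h3 5 (by norm_num),
    h3 6 (by norm_num), h3 7 (by norm_num), occL, chk]
  simp

/-! ### the computation -/

/-- total number of words with `m` inversions, and their occurrences, in one pass -/
def total (m : ℕ) (L : List (List ℕ)) : ℕ × ℕ :=
  L.foldl (fun acc l => if invL l = m then (acc.1 + 1, acc.2 + occL l) else acc) (0, 0)

lemma foldl_total (m : ℕ) (L : List (List ℕ)) : ∀ acc : ℕ × ℕ,
    L.foldl (fun acc l => if invL l = m then (acc.1 + 1, acc.2 + occL l) else acc) acc =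
      (acc.1 + (L.map fun l => if invL l = m then 1 else 0).sum,
       acc.2 + (L.map fun l => if invL l = m then occL l else 0).sum) := by
  induction L with
  | nil => intro acc; simp
  | cons l L ih =>
    intro acc
    rw [List.foldl_cons, ih]
    simp only [List.map_cons, List.sum_cons]
    split_ifs <;> simp [add_assoc]

lemma total5 : total 5 (words 7) = (169, 6) := by decide +kernel

lemma total8 : total 8 (words 7) = (455, 15) := by decide +kernel

lemma total9 : total 9 (words 7) = (531, 18) := by decide +kernel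

lemma expected_eq (m A B : ℕ) (h : total m (words 7) = (A, B)) :
    expected 7 m (finRotate 5) = (B : ℚ) / A := by
  have h1 := foldl_total m (words 7) (0, 0)
  unfold total at h
  rw [h] at h1
  have hA : A = 0 + ((words 7).map fun l => if invL l = m then 1 else 0).sum :=
    congrArg Prod.fst h1
  have hB : B = 0 + ((words 7).map fun l => if invL l = m then occL l else 0).sum :=
    congrArg Prod.snd h1
  rw [zero_add, ← sum_words] at hA hB
  have e1 : ∑ σ ∈ univ.filter (fun σ : Perm (Fin 7) => inv σ = m), (occ (finRotate 5) σ : ℚ) =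
      (B : ℚ) := by
    rw [← Nat.cast_sum, hB, Finset.sum_filter]
    refine congrArg _ (Finset.sum_congr rfl fun σ _ => ?_)
    rw [inv_eq, occ_eq]
  have e2 : (univ.filter (fun σ : Perm (Fin 7) => inv σ = m)).card = A := by
    rw [hA, Finset.card_filter]
    refine Finset.sum_congr rfl fun σ _ => ?_
    rw [inv_eq]
  unfold expected
  rw [e1, e2]

/-- **Main result.** For the consecutive pattern `23451` (`finRotate 5`) and `n = 7 = 5 + 2` the
expected number of occurrences as a function of the number of inversions is not unimodal: the values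
at `5`, `8`, `9` inversions are `6/169 > 15/455 < 18/531`. -/
theorem result : expected 7 5 (finRotate 5) = 6 / 169 ∧ expected 7 8 (finRotate 5) = 15 / 455 ∧
    expected 7 9 (finRotate 5) = 18 / 531 ∧
    ∃ (k n : ℕ) (π : Perm (Fin k)) (a b c : ℕ), k + 2 ≤ n ∧ a < b ∧ b < c ∧ c ≤ n.choose 2 ∧
      expected n b π < expected n a π ∧ expected n b π < expected n c π := by
  have h5 : expected 7 5 (finRotate 5) = 6 / 169 := by
    have h := expected_eq 5 169 6 total5
    norm_num at h ⊢
    exact h
  have h8 : expected 7 8 (finRotate 5) = 15 / 455 := by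
    have h := expected_eq 8 455 15 total8
    norm_num at h ⊢
    exact h
  have h9 : expected 7 9 (finRotate 5) = 18 / 531 := by
    have h := expected_eq 9 531 18 total9
    norm_num at h ⊢
    exact h
  have hc : (9 : ℕ) ≤ (7 : ℕ).choose 2 := by decide
  have e1 : expected 7 8 (finRotate 5) < expected 7 5 (finRotate 5) := by
    rw [h5, h8]
    norm_num
  have e2 : expected 7 8 (finRotate 5) < expected 7 9 (finRotate 5) := by
    rw [h9, h8]
    norm_num
  exact ⟨h5, h8, h9, ⟨5, 7, finRotate 5, 5, 8, 9, le_refl 7, by norm_num, by norm_num, hc, e1, e2⟩⟩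

end Pool.Agent.Results.MP_094caa_co.NotUnimodal
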